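import Pool.Agent.H97.SDG.Targets

/-!
# Board szg_modules: KEG
-/

set_option autoImplicit false

open Finset

namespace Pool.Agent.H88.SDG

open Pool.Agent.H97.SD Pool.Agent.H97.SDQ Pool.Agent.H97.SDG

theorem card_evenB (hPAT : P_PAT) (a b : ℕ) (hb : 1 ≤ b)
    [DecidablePred (fun z : Fin a × Fin b → Bool => EvenB z)] :
    (univ.filter (fun z : Fin a × Fin b → Bool => EvenB z)).card = 2 ^ ((b - 1) * a) := by
  classical
  set E : Finset (Fin b → Bool) :=
    univ.filter (fun π : Fin b → Bool => Even (univ.filter (fun i => π i = true)).card) with hE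
  have h1 : (univ.filter (fun z : Fin a × Fin b → Bool => EvenB z)).card
      = (Fintype.piFinset (fun _ : Fin a => E)).card := by
    apply Finset.card_nbij' (fun z => fun p i => z (p, i)) (fun w => fun v => w v.1 v.2)
    · intro z hz
      simp only [Finset.coe_filter, Finset.mem_univ, true_and, Set.mem_ofPred_eq] at hz
      simp only [Finset.mem_coe, Fintype.mem_piFinset, hE, Finset.mem_filter, Finset.mem_univ,
        true_and]
      intro p
      exact hz p
    · intro w hw
      simp only [Finset.mem_coe, Fintype.mem_piFinset, hE, Finset.mem_filter, Finset.mem_univ,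
        true_and] at hw
      simp only [Finset.coe_filter, Finset.mem_univ, true_and, Set.mem_ofPred_eq]
      intro g
      exact hw g
    · intro z _
      rfl
    · intro w _
      rfl
  rw [h1, Fintype.card_piFinset, Finset.prod_const, Finset.card_univ, Fintype.card_fin, hE,
    (hPAT b hb).1, ← pow_mul]

/-- The cyclic successor. -/
def sc {b : ℕ} (hb : 0 < b) (i : Fin b) : Fin b :=
  if h : i.val + 1 < b then ⟨i.val + 1, h⟩ else ⟨0, hb⟩

lemma sc_ne {b : ℕ} (hb : 0 < b) (h3 : 3 ≤ b) (i : Fin b) : sc hb i ≠ i := by
  intro h
  have h1 := congrArg Fin.val h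
  unfold sc at h1
  have := i.2
  split_ifs at h1 with h2
  · simp at h1
  · simp at h1
    omega

lemma sc_sc_ne {b : ℕ} (hb : 0 < b) (h3 : 3 ≤ b) (i : Fin b) : sc hb (sc hb i) ≠ i := by
  intro h
  have h1 := congrArg Fin.val h
  have hi := i.2
  by_cases h2 : i.val + 1 < b
  · have e1 : sc hb i = ⟨i.val + 1, h2⟩ := by
      unfold sc
      rw [dif_pos h2]
    rw [e1] at h1
    by_cases h4 : i.val + 1 + 1 < b
    · have e2 : sc hb ⟨i.val + 1, h2⟩ = ⟨i.val + 1 + 1, h4⟩ := by
        unfold sc
        rw [dif_pos h4]
      rw [e2] at h1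
      simp only at h1
      omega
    · have e2 : sc hb ⟨i.val + 1, h2⟩ = ⟨0, hb⟩ := by
        unfold sc
        rw [dif_neg h4]
      rw [e2] at h1
      simp only at h1
      omega
  · have e1 : sc hb i = ⟨0, hb⟩ := by
      unfold sc
      rw [dif_neg h2]
    have h4 : 0 + 1 < b := by omega
    have e2 : sc hb ⟨0, hb⟩ = ⟨0 + 1, h4⟩ := by
      unfold sc
      rw [dif_pos h4]
    rw [e1, e2] at h1
    simp only at h1
    omega

/-- The flip of the bit `v` and of the next one. -/
def fl {a b : ℕ} (hb : 0 < b) (β : Fin a × Fin b → Bool) (v : Fin a × Fin b) :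
    Fin a × Fin b → Bool :=
  fun w => if w = v ∨ w = (v.1, sc hb v.2) then !(β w) else β w

lemma even_iff {b : ℕ} (π : Fin b → Bool) :
    Even (univ.filter (fun i => π i = true)).card ↔
      ∑ i, (if π i = true then (1 : ZMod 2) else 0) = 0 := by
  rw [← Finset.sum_filter, Finset.sum_const, nsmul_eq_mul, mul_one]
  exact (ZMod.natCast_eq_zero_iff_even).symm

lemma fl_even {a b : ℕ} (hb : 0 < b) (h3 : 3 ≤ b) (β : Fin a × Fin b → Bool) (v : Fin a × Fin b)
    (hβ : EvenB β) : EvenB (fl hb β v) := by
  intro g
  by_cases hg : g = v.1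
  · subst hg
    rw [even_iff]
    have h1 := (even_iff _).1 (hβ v.1)
    have h2 : ∀ i : Fin b, (if fl hb β v (v.1, i) = true then (1 : ZMod 2) else 0) =
        (if β (v.1, i) = true then (1 : ZMod 2) else 0) + (if i = v.2 then 1 else 0) +
          (if i = sc hb v.2 then 1 else 0) := by
      intro i
      have hne := sc_ne hb h3 v.2
      by_cases e1 : i = v.2
      · subst e1
        have : fl hb β v (v.1, v.2) = !(β (v.1, v.2)) := by
          unfold fl
          rw [if_pos (Or.inl rfl)]
        rw [this, if_pos rfl, if_neg hne.symm]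
        cases β (v.1, v.2)
        · simp
        · simp only [Bool.not_true, Bool.false_eq_true, if_false, if_true, add_zero]
          decide
      · by_cases e2 : i = sc hb v.2
        · subst e2
          have : fl hb β v (v.1, sc hb v.2) = !(β (v.1, sc hb v.2)) := by
            unfold fl
            rw [if_pos (Or.inr rfl)]
          rw [this, if_neg e1, if_pos rfl]
          cases β (v.1, sc hb v.2)
          · simp
          · simp only [Bool.not_true, Bool.false_eq_true, if_false, if_true, add_zero]
            decide
        · have : fl hb β v (v.1, i) = β (v.1, i) := by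
            unfold fl
            rw [if_neg]
            rintro (h | h)
            · exact e1 (congrArg Prod.snd h)
            · exact e2 (congrArg Prod.snd h)
          rw [this, if_neg e1, if_neg e2, add_zero, add_zero]
    rw [Finset.sum_congr rfl fun i _ => h2 i, Finset.sum_add_distrib, Finset.sum_add_distrib, h1,
      Finset.sum_ite_eq' univ v.2, Finset.sum_ite_eq' univ (sc hb v.2)]
    simp only [mem_univ, if_true]
    decide
  · have h2 : ∀ i : Fin b, fl hb β v (g, i) = β (g, i) := by
      intro i
      unfold fl
      rw [if_neg]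
      rintro (h | h)
      · exact hg (congrArg Prod.fst h)
      · exact hg (congrArg Prod.fst h)
    simp only [h2]
    exact hβ g

theorem pf_KEG (hPAT : P_PAT) : P_KEG := by
  classical
  intro a b C h3
  have hb : 0 < b := by omega
  set E : Finset (Fin a × Fin b → Bool) := univ.filter (fun z => EvenB z) with hE
  have hEc : E.card = 2 ^ ((b - 1) * a) := card_evenB hPAT a b (by omega)
  set S : Finset ((Fin a × Fin b → Bool) × (Fin a × Fin b)) := univ.filter
    (fun z => EvenB z.1 ∧ z.2 ∈ C.image Prod.fst ∧ ∀ l ∈ C, l.1 ≠ z.2 → z.1 l.1 ≠ l.2) with hS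
  have hmem : ∀ z, z ∈ S ↔ EvenB z.1 ∧ z.2 ∈ C.image Prod.fst ∧
      ∀ l ∈ C, l.1 ≠ z.2 → z.1 l.1 ≠ l.2 := by
    intro z
    rw [hS, mem_filter]
    exact ⟨fun h => h.2, fun h => ⟨mem_univ _, h⟩⟩
  have key : S.card ≤ 2 * 2 ^ ((b - 1) * a) := by
    rw [← Finset.card_filter_add_card_filter_not (s := S) (fun z => ∀ l ∈ C, z.1 l.1 ≠ l.2), ← hEc,
      two_mul]
    refine Nat.add_le_add ?_ ?_
    · refine Finset.card_le_card_of_injOn (fun z => fl hb z.1 z.2) ?_ ?_
      · intro z hz
        have hz1 := (hmem z).1 (mem_filter.1 (mem_coe.1 hz)).1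
        rw [mem_coe, hE, mem_filter]
        exact ⟨mem_univ _, fl_even hb h3 _ _ hz1.1⟩
      · rintro ⟨β, v⟩ hz ⟨β', v'⟩ hz' h
        obtain ⟨hz1, hz2⟩ := mem_filter.1 (mem_coe.1 hz)
        obtain ⟨hz1', hz2'⟩ := mem_filter.1 (mem_coe.1 hz')
        have hv := ((hmem _).1 hz1).2.1
        have hv' := ((hmem _).1 hz1').2.1
        simp only at hv hv' hz2 hz2' h
        have hag : ∀ w ∈ C.image Prod.fst, β w = β' w := by
          intro w hw
          obtain ⟨l, hl, rfl⟩ := mem_image.1 hw
          have h4 := hz2 l hl
          have h5 := hz2' l hl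
          revert h4 h5
          cases β l.1 <;> cases β' l.1 <;> cases l.2 <;> simp
        have hne : ∀ x : Bool, (!x) ≠ x := by
          intro x
          cases x <;> simp
        have g1 : v = v' ∨ v = (v'.1, sc hb v'.2) := by
          by_contra hcon
          have h4 := congrFun h v
          unfold fl at h4
          rw [if_pos (Or.inl rfl), if_neg hcon, hag v hv] at h4
          exact hne _ h4
        have g2 : v' = v ∨ v' = (v.1, sc hb v.2) := by
          by_contra hcon
          have h4 := congrFun h v'
          unfold fl at h4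
          rw [if_pos (Or.inl rfl), if_neg hcon, ← hag v' hv'] at h4
          exact hne _ h4.symm
        have hvv : v = v' := by
          rcases g1 with g1 | g1
          · exact g1
          · rcases g2 with g2 | g2
            · exact g2.symm
            · exfalso
              have h4 := congrArg Prod.snd g1
              have h5 := congrArg Prod.snd g2
              simp only at h4 h5
              rw [h5] at h4
              exact sc_sc_ne hb h3 v.2 h4.symm
        subst hvv
        have hββ : β = β' := by
          funext w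
          have h4 := congrFun h w
          unfold fl at h4
          split_ifs at h4
          · exact Bool.not_inj h4
          · exact h4
        rw [hββ]
    · refine Finset.card_le_card_of_injOn (fun z => z.1) ?_ ?_
      · intro z hz
        have hz1 := (hmem z).1 (mem_filter.1 (mem_coe.1 hz)).1
        rw [mem_coe, hE, mem_filter]
        exact ⟨mem_univ _, hz1.1⟩
      · rintro ⟨β, v⟩ hz ⟨β', v'⟩ hz' h
        obtain ⟨hz1, hz2⟩ := mem_filter.1 (mem_coe.1 hz)
        obtain ⟨hz1', -⟩ := mem_filter.1 (mem_coe.1 hz')
        simp only at h hz2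
        subst h
        push Not at hz2
        obtain ⟨l, hl, hl2⟩ := hz2
        have h4 := ((hmem _).1 hz1).2.2 l hl
        have h5 := ((hmem _).1 hz1').2.2 l hl
        simp only at h4 h5
        have e1 : l.1 = v := by
          by_contra hcon
          exact h4 hcon hl2
        have e2 : l.1 = v' := by
          by_contra hcon
          exact h5 hcon hl2
        rw [← e1, ← e2]
  exact key

end Pool.Agent.H88.SDG
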